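import Pool.Agent.Helper30.EL.St

/-!
# Project EL, module T1E: the constants of the upper bound sieve for small `s`
-/

set_option autoImplicit false

noncomputable section

namespace Pool.Agent.Helper63.EL

open Finset Filter Topology ArithmeticFunction
open Pool.Agent.Helper30.EL
open Pool.Agent.Helper93.KS (HU HL StT1 StDK)

/-- larger constants are valid -/
private lemma mono {κ S : ℕ} {s c c' : ℝ} (h : HU κ S s c) (hc : c ≤ c') : HU κ S s c' := by
  intro η hη
  obtain ⟨js, h1⟩ := h η hη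
  refine ⟨js, fun j0 hj U L hB j N h2 h3 h4 => ?_⟩
  exact hB.um N j (c + η) (c' + η) (h1 j0 hj U L hB j N h2 h3 h4) (by linarith)

/-- descending induction -/
private lemma desc (hK : StDK) (S : ℕ) (h17 : HU 1 S (17 / 16) (24850 / 10000)) :
    ∀ t : ℕ, t ≤ 16 → HU 1 S (((17 : ℝ) - t) / 16) (59245 / 1000 / ((17 : ℝ) - t) - 1) := by
  intro t
  induction t with
  | zero =>
    intro _
    have e1 : ((17 : ℝ) - ((0 : ℕ) : ℝ)) / 16 = 17 / 16 := by norm_num
    have e2 : (59245 / 1000 / ((17 : ℝ) - ((0 : ℕ) : ℝ)) - 1) = 24850 / 10000 := by norm_num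
    rw [e1, e2]
    exact h17
  | succ t ih =>
    intro ht
    have h := ih (by omega)
    have h1 : 1 ≤ 16 - t := by omega
    have hi : ((16 - t : ℕ) : ℝ) = 16 - (t : ℝ) := by
      rw [Nat.cast_sub (by omega)]; norm_num
    have hipos : (0 : ℝ) < 16 - (t : ℝ) := by
      have : (1 : ℝ) ≤ ((16 - t : ℕ) : ℝ) := by exact_mod_cast h1
      rw [hi] at this
      linarith
    have k1 : (((16 - t : ℕ) : ℝ) + 1) / ((16 : ℕ) : ℝ) = ((17 : ℝ) - t) / 16 := by
      rw [hi]; norm_num; ring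
    have hpos : (0 : ℝ) ≤ 59245 / 1000 / ((17 : ℝ) - t) - 1 := by
      have h17' : (17 : ℝ) - t ≤ 17 := by
        have : (0 : ℝ) ≤ (t : ℝ) := Nat.cast_nonneg t
        linarith
      have hp : (0 : ℝ) < 17 - (t : ℝ) := by linarith
      have : 1 ≤ 59245 / 1000 / ((17 : ℝ) - t) := by
        rw [le_div_iff₀ hp]
        linarith
      linarith
    have := hK 1 S 16 (16 - t) (59245 / 1000 / ((17 : ℝ) - t) - 1) (by norm_num) (by norm_num) h1
      hpos (by rw [k1]; exact h)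
    have k2 : ((16 - t : ℕ) : ℝ) / ((16 : ℕ) : ℝ) = ((17 : ℝ) - ((t + 1 : ℕ) : ℝ)) / 16 := by
      rw [hi]; push_cast; norm_num; ring
    have k3 : ((((16 - t : ℕ) : ℝ) + 1) / ((16 - t : ℕ) : ℝ)) ^ 1 *
        (59245 / 1000 / ((17 : ℝ) - t) - 1) + (((((16 - t : ℕ) : ℝ) + 1) / ((16 - t : ℕ) : ℝ)) ^ 1 - 1) =
        59245 / 1000 / ((17 : ℝ) - ((t + 1 : ℕ) : ℝ)) - 1 := by
      have e : (17 : ℝ) - ((t + 1 : ℕ) : ℝ) = 16 - (t : ℝ) := by push_cast; ring
      rw [hi, e]
      have hp : (17 : ℝ) - (t : ℝ) ≠ 0 := by linarith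
      have hq : (16 : ℝ) - (t : ℝ) ≠ 0 := hipos.ne'
      field_simp
      ring
    rw [k2, k3] at this
    exact this

/-- Module T1E. -/
theorem hT1E (hT : StT1) (hK : StDK) : StT1E := by
  intro S
  have h17 : HU 1 S (17 / 16) (24850 / 10000) := (hT S).2.2.2.2.2.2.2.2.2
  have d := desc hK S h17
  refine ⟨?_, ?_, ?_, ?_⟩
  · have h := d 3 (by norm_num)
    have e : ((17 : ℝ) - ((3 : ℕ) : ℝ)) / 16 = 14 / 16 := by norm_num
    rw [e] at h
    exact mono h (by norm_num)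
  · have h := d 7 (by norm_num)
    have e : ((17 : ℝ) - ((7 : ℕ) : ℝ)) / 16 = 10 / 16 := by norm_num
    rw [e] at h
    exact mono h (by norm_num)
  · have h := d 10 (by norm_num)
    have e : ((17 : ℝ) - ((10 : ℕ) : ℝ)) / 16 = 7 / 16 := by norm_num
    rw [e] at h
    exact mono h (by norm_num)
  · have h := d 14 (by norm_num)
    have e : ((17 : ℝ) - ((14 : ℕ) : ℝ)) / 16 = 3 / 16 := by norm_num
    rw [e] at h
    exact mono h (by norm_num)

end Pool.Agent.Helper63.EL
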